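import Pool.Agent.H73.CBD.Stmts

/-!
Row TRM of the board `cbd` (MP_e1af46_an): the derivative of the terms.
-/

set_option autoImplicit false

open Set Filter Topology

namespace Pool.CBD

theorem TRM_thm (h1 : ALGStmt) (h2 : UDRStmt) (h3 : TAUStmt) : TRMStmt := by
  obtain ⟨-, -, hP, hfC, -, -, -, hf0, -⟩ := h1
  intro k
  induction k with
  | zero =>
    intro z hz
    obtain ⟨hu, hd⟩ := h2 z hz
    exact ⟨hu.differentiableAt one_ne_zero, hd⟩
  | succ k ih =>
    intro z hz
    obtain ⟨hg, hd⟩ := ih (f z) (hf0 z hz)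
    have hf : DifferentiableAt ℝ f z := (hfC.differentiable two_ne_zero) z
    have hcomp : HasFDerivAt (fun y => u (f^[k + 1] y))
        ((fderiv ℝ (fun y => u (f^[k] y)) (f z)).comp (fderiv ℝ f z)) z :=
      hg.hasFDerivAt.comp z hf.hasFDerivAt
    refine ⟨hcomp.differentiableAt, fun v => ?_⟩
    rw [hcomp.fderiv, ContinuousLinearMap.comp_apply, hd, hP]
    have h4 := (h3 z hz).2.2.2
    rw [← Complex.div_ofReal_re, ← Complex.div_ofReal_re]
    congr 1
    have e1 : F k (f z) * (4 * z 0 * z 1 * P z v) / ((N (f z) : ℝ) : ℂ) =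
        F k (f z) * P z v * (4 * z 0 * z 1 / ((N (f z) : ℝ) : ℂ)) := by
      ring
    have e2 : F (k + 1) z * P z v / ((N z : ℝ) : ℂ) =
        F k (f z) * P z v * (tau z / ((N z : ℝ) : ℂ)) := by
      show F k (f z) * tau z * P z v / ((N z : ℝ) : ℂ) = _
      ring
    rw [e1, e2, h4]

end Pool.CBD
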